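import Pool.Agent.Helper40.Ct.Goals

/-!
MP_034a88_co, packet HYP0: the limit of the approximate solutions for hyperplanes.
-/

set_option autoImplicit false

open Finset Filter Topology

namespace Pool.Agent.Helper11.Ct
open Pool.Agent.Helper40.Ct

private theorem ubdd_lim (U : Ultrafilter ℕ) (f : ℕ → ℝ) (K : ℝ)
    (h : ∀ᶠ m in (U : Filter ℕ), |f m| ≤ K) : ∃ x : ℝ, Tendsto f (U : Filter ℕ) (𝓝 x) := by
  have h2 : (U.map f : Filter ℝ) ≤ 𝓟 (Set.Icc (-K) K) := by
    rw [le_principal_iff]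
    exact h.mono fun m hm => abs_le.mp hm
  obtain ⟨x, -, hx⟩ := (isCompact_Icc (a := -K) (b := K)).ultrafilter_le_nhds (U.map f) h2
  exact ⟨x, hx⟩

/-- the basic estimate -/
private theorem est {ι : Type} [Fintype ι] (w c s : ι → ℝ) (hw : ∀ i, 0 ≤ w i)
    (hw1 : ∑ i, w i = 1) (C : ℝ) (hC : ∀ i, |c i| ≤ C) (E : ℝ)
    (h : ∑ i, w i * ((c i - s i) * s i) = E) :
    ∑ i, w i * s i ^ 2 + 2 * E ≤ C ^ 2 := by
  have h1 : ∀ i, w i * s i ^ 2 + 2 * (w i * ((c i - s i) * s i)) ≤ w i * C ^ 2 := by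
    intro i
    have h2 : c i ^ 2 ≤ C ^ 2 := by
      have := hC i
      rw [← sq_abs (c i)]
      exact pow_le_pow_left₀ (abs_nonneg _) this 2
    nlinarith [mul_nonneg (hw i) (sq_nonneg (c i - s i)), mul_nonneg (hw i) (sub_nonneg.mpr h2)]
  calc ∑ i, w i * s i ^ 2 + 2 * E
      = ∑ i, (w i * s i ^ 2 + 2 * (w i * ((c i - s i) * s i))) := by
        rw [sum_add_distrib, ← mul_sum, h]
    _ ≤ ∑ i, w i * C ^ 2 := sum_le_sum fun i _ => h1 i
    _ = C ^ 2 := by rw [← sum_mul, hw1, one_mul]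

theorem hyp0 : HYPE → HYP0 := by
  intro hype d r hd hr hp n c hn
  have hε : ∀ m : ℕ, (0 : ℝ) < 1 / ((m : ℝ) + 1) := fun m => by positivity
  choose q π w hw0 hwz hw1 hwe using
    fun m : ℕ => hype d r hd hr hp n c hn (1 / ((m : ℝ) + 1)) (hε m)
  set U : Ultrafilter ℕ := hyperfilter ℕ with hU
  have hUle : (U : Filter ℕ) ≤ atTop := by
    rw [← Nat.cofinite_eq_atTop]; exact hyperfilter_le_cofinite
  set s : ℕ → Fin (d + 1) → Fin r → ℝ := fun m i a => ∑ k, n i a k * q m k with hs
  -- bound for the constants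
  obtain ⟨C, hC⟩ : ∃ C : ℝ, ∀ i a, |c i a| ≤ C := by
    refine ⟨∑ i, ∑ a, |c i a|, fun i a => ?_⟩
    calc |c i a| ≤ ∑ a, |c i a| := single_le_sum (f := fun a => |c i a|)
          (fun _ _ => abs_nonneg _) (mem_univ a)
      _ ≤ _ := single_le_sum (f := fun i => ∑ a, |c i a|)
          (fun _ _ => sum_nonneg fun _ _ => abs_nonneg _) (mem_univ i)
  -- the equations
  have heq : ∀ (m : ℕ) j k, ∑ i, ∑ a, w m j i a * ((c i a - s m i a) * n i a k)
      = (1 / ((m : ℝ) + 1)) * q m k := by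
    intro m j k
    have h := congrFun (hwe m j) k
    simp only [Finset.sum_apply, Pi.smul_apply, nv, smul_eq_mul] at h
    simpa [hs] using h
  have hE : ∀ (m : ℕ) j, ∑ i, ∑ a, w m j i a * ((c i a - s m i a) * s m i a)
      = (1 / ((m : ℝ) + 1)) * ∑ k, q m k ^ 2 := by
    intro m j
    calc ∑ i, ∑ a, w m j i a * ((c i a - s m i a) * s m i a)
        = ∑ i, ∑ a, ∑ k, w m j i a * ((c i a - s m i a) * n i a k) * q m k := by
          refine sum_congr rfl fun i _ => sum_congr rfl fun a _ => ?_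
          simp only [hs]
          rw [mul_sum, mul_sum]
          refine sum_congr rfl fun k _ => ?_
          ring
      _ = ∑ k, ∑ i, ∑ a, w m j i a * ((c i a - s m i a) * n i a k) * q m k := by
          rw [show (∑ i, ∑ a, ∑ k, w m j i a * ((c i a - s m i a) * n i a k) * q m k)
            = ∑ i, ∑ k, ∑ a, w m j i a * ((c i a - s m i a) * n i a k) * q m k from
            sum_congr rfl fun i _ => sum_comm]
          exact sum_comm
      _ = ∑ k, ((1 / ((m : ℝ) + 1)) * q m k) * q m k := by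
          refine sum_congr rfl fun k _ => ?_
          rw [← heq m j k, sum_mul]
          refine sum_congr rfl fun i _ => ?_
          rw [sum_mul]
      _ = _ := by
          rw [mul_sum]
          refine sum_congr rfl fun k _ => ?_
          ring
  have hbd : ∀ (m : ℕ) j, ∑ i, ∑ a, w m j i a * s m i a ^ 2
      + 2 * ((1 / ((m : ℝ) + 1)) * ∑ k, q m k ^ 2) ≤ C ^ 2 := by
    intro m j
    have h := est (ι := Fin (d + 1) × Fin r) (fun p => w m j p.1 p.2) (fun p => c p.1 p.2)
      (fun p => s m p.1 p.2) (fun p => hw0 m j p.1 p.2)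
      (by rw [Fintype.sum_prod_type]; exact hw1 m j) C (fun p => hC p.1 p.2)
      ((1 / ((m : ℝ) + 1)) * ∑ k, q m k ^ 2)
      (by rw [Fintype.sum_prod_type]; exact hE m j)
    rw [Fintype.sum_prod_type] at h
    exact h
  have hws : ∀ (m : ℕ) j i a, w m j i a * s m i a ^ 2 ≤ C ^ 2 := by
    intro m j i a
    have h1 : w m j i a * s m i a ^ 2 ≤ ∑ i, ∑ a, w m j i a * s m i a ^ 2 := by
      calc w m j i a * s m i a ^ 2 ≤ ∑ a, w m j i a * s m i a ^ 2 :=
            single_le_sum (f := fun a => w m j i a * s m i a ^ 2)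
              (fun a _ => mul_nonneg (hw0 m j i a) (sq_nonneg _)) (mem_univ a)
        _ ≤ _ := single_le_sum (f := fun i => ∑ a, w m j i a * s m i a ^ 2)
              (fun i _ => sum_nonneg fun a _ => mul_nonneg (hw0 m j i a) (sq_nonneg _))
              (mem_univ i)
    have h2 : 0 ≤ (1 / ((m : ℝ) + 1)) * ∑ k, q m k ^ 2 :=
      mul_nonneg (hε m).le (sum_nonneg fun k _ => sq_nonneg _)
    linarith [hbd m j]
  -- the right hand side tends to `0`
  have hq0 : ∀ k, Tendsto (fun m : ℕ => (1 / ((m : ℝ) + 1)) * q m k) (U : Filter ℕ) (𝓝 0) := by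
    intro k
    have hsq : ∀ m : ℕ, ((1 / ((m : ℝ) + 1)) * q m k) ^ 2 ≤ (1 / ((m : ℝ) + 1)) * C ^ 2 := by
      intro m
      have h1 : q m k ^ 2 ≤ ∑ k, q m k ^ 2 :=
        single_le_sum (f := fun k => q m k ^ 2) (fun _ _ => sq_nonneg _) (mem_univ k)
      have h2 : 0 ≤ ∑ i, ∑ a, w m ⟨0, hr⟩ i a * s m i a ^ 2 :=
        sum_nonneg fun i _ => sum_nonneg fun a _ => mul_nonneg (hw0 m _ i a) (sq_nonneg _)
      have h3 := hbd m ⟨0, hr⟩
      have h4 : (1 / ((m : ℝ) + 1)) * q m k ^ 2 ≤ C ^ 2 := by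
        have h5 := mul_le_mul_of_nonneg_left h1 (hε m).le
        have h6 : 0 ≤ (1 / ((m : ℝ) + 1)) * ∑ k, q m k ^ 2 :=
          mul_nonneg (hε m).le (sum_nonneg fun k _ => sq_nonneg _)
        linarith
      calc ((1 / ((m : ℝ) + 1)) * q m k) ^ 2
          = (1 / ((m : ℝ) + 1)) * ((1 / ((m : ℝ) + 1)) * q m k ^ 2) := by ring
        _ ≤ _ := mul_le_mul_of_nonneg_left h4 (hε m).le
    have hlim : Tendsto (fun m : ℕ => (1 / ((m : ℝ) + 1)) * C ^ 2) (U : Filter ℕ) (𝓝 0) := by
      have := (tendsto_one_div_add_atTop_nhds_zero_nat (𝕜 := ℝ)).mono_left hUle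
      simpa using this.mul_const (C ^ 2)
    have h2 : Tendsto (fun m : ℕ => ((1 / ((m : ℝ) + 1)) * q m k) ^ 2) (U : Filter ℕ) (𝓝 0) :=
      squeeze_zero (fun m => sq_nonneg _) hsq hlim
    have h3 := (Real.continuous_sqrt.tendsto 0).comp h2
    rw [Real.sqrt_zero] at h3
    have h4 : Tendsto (fun m : ℕ => |(1 / ((m : ℝ) + 1)) * q m k|) (U : Filter ℕ) (𝓝 0) := by
      refine h3.congr fun m => ?_
      simp only [Function.comp]
      rw [Real.sqrt_sq_eq_abs]
    exact (tendsto_zero_iff_abs_tendsto_zero _).mpr h4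
  -- the facet is eventually constant
  obtain ⟨π0, hπ0⟩ := Ultrafilter.eq_pure_of_finite (U.map π)
  have hπ : ∀ᶠ m in (U : Filter ℕ), π m = π0 := by
    have : ({π0} : Set (Fac d r)) ∈ (U.map π) := by
      rw [hπ0]; exact Ultrafilter.mem_pure.mpr rfl
    exact this
  -- the limits of the weights
  have hwle : ∀ m j i a, w m j i a ≤ 1 := by
    intro m j i a
    rw [← hw1 m j]
    calc w m j i a ≤ ∑ a, w m j i a :=
          single_le_sum (f := fun a => w m j i a) (fun a _ => hw0 m j i a) (mem_univ a)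
      _ ≤ _ := single_le_sum (f := fun i => ∑ a, w m j i a)
          (fun i _ => sum_nonneg fun a _ => hw0 m j i a) (mem_univ i)
  have hwlim : ∀ j i a, ∃ x : ℝ, Tendsto (fun m => w m j i a) (U : Filter ℕ) (𝓝 x) := by
    intro j i a
    refine ubdd_lim U _ 1 (Eventually.of_forall fun m => ?_)
    rw [abs_of_nonneg (hw0 m j i a)]
    exact hwle m j i a
  choose W hW using hwlim
  -- the bounded coordinates
  set I : Set (Fin (d + 1) × Fin r) :=
    {p | ∃ K : ℝ, ∀ᶠ m in (U : Filter ℕ), |s m p.1 p.2| ≤ K} with hI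
  classical
  have hSlim : ∀ p : Fin (d + 1) × Fin r, ∃ x : ℝ,
      (p ∈ I → Tendsto (fun m => s m p.1 p.2) (U : Filter ℕ) (𝓝 x)) ∧ (p ∉ I → x = 0) := by
    intro p
    by_cases hp : p ∈ I
    · obtain ⟨K, hK⟩ := hp
      obtain ⟨x, hx⟩ := ubdd_lim U _ K hK
      exact ⟨x, fun _ => hx, fun h => absurd ⟨K, hK⟩ h⟩
    · exact ⟨0, fun h => absurd h hp, fun _ => rfl⟩
  choose S hS using hSlim
  have hunb : ∀ p : Fin (d + 1) × Fin r, p ∉ I → ∀ j,
      Tendsto (fun m => w m j p.1 p.2) (U : Filter ℕ) (𝓝 0) ∧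
      Tendsto (fun m => w m j p.1 p.2 * s m p.1 p.2) (U : Filter ℕ) (𝓝 0) := by
    intro p hp j
    have hlarge : ∀ K : ℝ, ∀ᶠ m in (U : Filter ℕ), K < |s m p.1 p.2| := by
      intro K
      have h1 : ¬ ∀ᶠ m in (U : Filter ℕ), |s m p.1 p.2| ≤ K := fun h => hp ⟨K, h⟩
      have h2 := Ultrafilter.eventually_not.mpr h1
      exact h2.mono fun m hm => not_le.mp hm
    have hinf : Tendsto (fun m => |s m p.1 p.2|) (U : Filter ℕ) atTop :=
      tendsto_atTop.mpr fun K => (hlarge K).mono fun m hm => hm.le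
    have hinv : Tendsto (fun m => C ^ 2 * |s m p.1 p.2|⁻¹) (U : Filter ℕ) (𝓝 0) := by
      simpa using (tendsto_inv_atTop_zero.comp hinf).const_mul (C ^ 2)
    have hb : ∀ᶠ m in (U : Filter ℕ), w m j p.1 p.2 * |s m p.1 p.2| ≤ C ^ 2 * |s m p.1 p.2|⁻¹ := by
      refine (hlarge 1).mono fun m hm => ?_
      have hpos : 0 < |s m p.1 p.2| := lt_trans one_pos hm
      rw [← div_eq_mul_inv, le_div_iff₀ hpos]
      calc w m j p.1 p.2 * |s m p.1 p.2| * |s m p.1 p.2| = w m j p.1 p.2 * s m p.1 p.2 ^ 2 := by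
            rw [mul_assoc, ← sq, sq_abs]
        _ ≤ _ := hws m j p.1 p.2
    have ht1 : Tendsto (fun m => w m j p.1 p.2 * |s m p.1 p.2|) (U : Filter ℕ) (𝓝 0) :=
      squeeze_zero' (Eventually.of_forall fun m => mul_nonneg (hw0 m j _ _) (abs_nonneg _)) hb hinv
    constructor
    · refine squeeze_zero' (Eventually.of_forall fun m => hw0 m j _ _) ?_ ht1
      refine (hlarge 1).mono fun m hm => ?_
      exact le_mul_of_one_le_right (hw0 m j _ _) hm.le
    · refine (tendsto_zero_iff_abs_tendsto_zero _).mpr (ht1.congr fun m => ?_)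
      simp only [Function.comp]
      rw [abs_mul, abs_of_nonneg (hw0 m j _ _)]
  -- the limit point
  have hq' : ∃ q' : Fin d → ℝ, ∀ p ∈ I, ∑ k, n p.1 p.2 k * q' k = S p := by
    let T : (Fin d → ℝ) →ₗ[ℝ] (Fin (d + 1) × Fin r → ℝ) :=
      { toFun := fun x p => if p ∈ I then ∑ k, n p.1 p.2 k * x k else 0
        map_add' := by
          intro x y
          funext p
          simp only [Pi.add_apply]
          split_ifs
          · rw [← sum_add_distrib]
            exact sum_congr rfl fun k _ => mul_add _ _ _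
          · simp
        map_smul' := by
          intro t x
          funext p
          simp only [Pi.smul_apply, smul_eq_mul, RingHom.id_apply]
          split_ifs
          · rw [mul_sum]
            exact sum_congr rfl fun k _ => by ring
          · simp }
    have hcl : IsClosed ((LinearMap.range T : Submodule ℝ (Fin (d + 1) × Fin r → ℝ)) :
        Set (Fin (d + 1) × Fin r → ℝ)) := Submodule.closed_of_finiteDimensional _
    have ht : Tendsto (fun m => T (q m)) (U : Filter ℕ) (𝓝 S) := by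
      rw [tendsto_pi_nhds]
      intro p
      by_cases hp : p ∈ I
      · have : (fun m => T (q m) p) = fun m => s m p.1 p.2 := by
          funext m
          simp [T, hp, hs]
        rw [this]
        exact (hS p).1 hp
      · have : (fun m => T (q m) p) = fun _ => 0 := by
          funext m
          simp [T, hp]
        rw [this, (hS p).2 hp]
        exact tendsto_const_nhds
    have hmem : S ∈ ((LinearMap.range T : Submodule ℝ (Fin (d + 1) × Fin r → ℝ)) :
        Set (Fin (d + 1) × Fin r → ℝ)) :=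
      hcl.mem_of_tendsto ht (Eventually.of_forall fun m => LinearMap.mem_range_self T (q m))
    obtain ⟨q', hq'⟩ := hmem
    refine ⟨q', fun p hp => ?_⟩
    have := congrFun hq' p
    simpa [T, hp] using this
  obtain ⟨q', hq'⟩ := hq'
  refine ⟨q', π0, fun j => ⟨W j, ?_, ?_, ?_, ?_⟩⟩
  · intro i a
    exact ge_of_tendsto (hW j i a) (Eventually.of_forall fun m => hw0 m j i a)
  · intro i a hne
    refine tendsto_nhds_unique (hW j i a) (tendsto_const_nhds.congr' ?_)
    refine hπ.mono fun m hm => ?_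
    symm
    exact hwz m j i a (by rw [hm]; exact hne)
  · have h1 : Tendsto (fun m => ∑ i, ∑ a, w m j i a) (U : Filter ℕ) (𝓝 (∑ i, ∑ a, W j i a)) :=
      tendsto_finsetSum _ fun i _ => tendsto_finsetSum _ fun a _ => hW j i a
    refine tendsto_nhds_unique h1 (tendsto_const_nhds.congr fun m => ?_)
    exact (hw1 m j).symm
  · funext k
    simp only [Finset.sum_apply, Pi.smul_apply, nv, smul_eq_mul, Pi.zero_apply]
    have h1 : Tendsto (fun m => ∑ i, ∑ a, w m j i a * ((c i a - s m i a) * n i a k))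
        (U : Filter ℕ)
        (𝓝 (∑ i, ∑ a, W j i a * ((c i a - ∑ k, n i a k * q' k) * n i a k))) := by
      refine tendsto_finsetSum _ fun i _ => tendsto_finsetSum _ fun a _ => ?_
      by_cases hp : (i, a) ∈ I
      · have h2 := (hS (i, a)).1 hp
        have h3 := hq' (i, a) hp
        simp only at h2 h3
        rw [h3]
        exact (hW j i a).mul ((h2.const_sub (c i a)).mul_const (n i a k))
      · obtain ⟨h2, h3⟩ := hunb (i, a) hp j
        simp only at h2 h3
        have h4 : W j i a = 0 := tendsto_nhds_unique (hW j i a) h2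
        rw [h4, zero_mul]
        have h5 : Tendsto (fun m => (w m j i a * c i a - w m j i a * s m i a) * n i a k)
            (U : Filter ℕ) (𝓝 ((0 * c i a - 0) * n i a k)) :=
          ((h2.mul_const (c i a)).sub h3).mul_const (n i a k)
        rw [zero_mul, sub_zero, zero_mul] at h5
        refine h5.congr fun m => ?_
        ring
    refine tendsto_nhds_unique h1 ((hq0 k).congr fun m => ?_)
    exact (heq m j k).symm

end Pool.Agent.Helper11.Ct
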